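import Pool.Agent.H.MP_d01483_lc.Laman.Henneberg

/-!
A generic framework which is not infinitesimally rigid admits a continuous motion.
-/

set_option linter.unusedSectionVars false
set_option linter.unusedVariables false

namespace Pool.Agent.H.MP_d01483_lc

open Finset

section
variable {V : Type} [DecidableEq V] [Fintype V]

/-- squared distance -/
def dsq (x y : Fin 2 → ℝ) : ℝ := dot (x - y) (x - y)

/-- squared length of an edge -/
def lsq (p : Conf V) : Sym2 V → ℝ :=
  Sym2.lift ⟨fun u v => dsq (p u) (p v), fun u v => by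
    simp only [dsq, dot, Pi.sub_apply]; ring⟩

@[simp] theorem lsq_mk (p : Conf V) (u v : V) : lsq p s(u, v) = dsq (p u) (p v) := rfl

theorem hasDerivAt_coord {α : ℝ → Conf V} {a : Conf V} {t : ℝ} (h : HasDerivAt α a t) (v : V)
    (i : Fin 2) : HasDerivAt (fun s => α s v i) (a v i) t :=
  hasDerivAt_pi.1 (hasDerivAt_pi.1 h v) i

theorem hasDerivAt_lsq {α : ℝ → Conf V} {a : Conf V} {t : ℝ} (h : HasDerivAt α a t)
    (e : Sym2 V) : HasDerivAt (fun s => lsq (α s) e) (2 * rig (α t) a e) t := by
  induction e using Sym2.ind with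
  | h u v =>
    have h0 := (hasDerivAt_coord h u 0).sub (hasDerivAt_coord h v 0)
    have h1 := (hasDerivAt_coord h u 1).sub (hasDerivAt_coord h v 1)
    have h2 := (h0.mul h0).add (h1.mul h1)
    have e1 : (fun s => lsq (α s) s(u, v)) = (fun s => α s u 0 - α s v 0) *
        (fun s => α s u 0 - α s v 0) + (fun s => α s u 1 - α s v 1) *
        (fun s => α s u 1 - α s v 1) := by
      funext s
      simp [dsq, dot]
    rw [e1]
    refine h2.congr_deriv ?_
    rw [rig_mk]
    simp only [dot, Pi.sub_apply]
    ring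

/-! ### The polynomial vector field -/

theorem contDiff_realM (F : Finset (Sym2 V)) (e : F) (w : V × Fin 2) :
    ContDiff ℝ 1 (fun q : Conf V => realM F q e w) := by
  obtain ⟨e, he⟩ := e
  induction e using Sym2.ind with
  | h u v =>
    simp only [realM, Sym2.lift_mk]
    fun_prop

theorem contDiff_det {ι : Type} [Fintype ι] [DecidableEq ι] {M : Conf V → Matrix ι ι ℝ}
    (hM : ∀ i j, ContDiff ℝ 1 (fun q => M q i j)) : ContDiff ℝ 1 (fun q => (M q).det) := by
  simp only [Matrix.det_apply]
  apply ContDiff.sum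
  intro σ _
  apply ContDiff.const_smul
  apply contDiff_prod
  intro i _
  exact hM _ _

theorem contDiff_adjugate {ι : Type} [Fintype ι] [DecidableEq ι] {M : Conf V → Matrix ι ι ℝ}
    (hM : ∀ i j, ContDiff ℝ 1 (fun q => M q i j)) (i j : ι) :
    ContDiff ℝ 1 (fun q => (M q).adjugate i j) := by
  simp only [Matrix.adjugate_apply]
  apply contDiff_det
  intro k l
  simp only [Matrix.updateRow_apply]
  split_ifs
  · exact contDiff_const
  · exact hM _ _

theorem contDiff_mul {ι κ ν : Type} [Fintype κ] {M : Conf V → Matrix ι κ ℝ}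
    {N : Conf V → Matrix κ ν ℝ} (hM : ∀ i j, ContDiff ℝ 1 (fun q => M q i j))
    (hN : ∀ i j, ContDiff ℝ 1 (fun q => N q i j)) (i : ι) (j : ν) :
    ContDiff ℝ 1 (fun q => (M q * N q) i j) := by
  simp only [Matrix.mul_apply]
  apply ContDiff.sum
  intro k _
  exact (hM _ _).mul (hN _ _)

theorem contDiff_mulVec {ι κ : Type} [Fintype κ] {M : Conf V → Matrix ι κ ℝ}
    {x : Conf V → κ → ℝ} (hM : ∀ i j, ContDiff ℝ 1 (fun q => M q i j))
    (hx : ∀ j, ContDiff ℝ 1 (fun q => x q j)) (i : ι) :
    ContDiff ℝ 1 (fun q => (M q).mulVec (x q) i) := by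
  simp only [Matrix.mulVec, dotProduct]
  apply ContDiff.sum
  intro k _
  exact (hM _ _).mul (hx _)

/-- Gram matrix -/
noncomputable def gramM (F : Finset (Sym2 V)) (q : Conf V) : Matrix F F ℝ :=
  realM F q * (realM F q).transpose

theorem contDiff_gramM (F : Finset (Sym2 V)) (i j : F) :
    ContDiff ℝ 1 (fun q : Conf V => gramM F q i j) :=
  contDiff_mul (contDiff_realM F) (fun i j => contDiff_realM F j i) i j

/-- correction term -/
noncomputable def corr (F : Finset (Sym2 V)) (v q : Conf V) : V × Fin 2 → ℝ :=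
  (realM F q).transpose.mulVec ((gramM F q).adjugate.mulVec
    ((realM F q).mulVec (fun w => v w.1 w.2)))

/-- the polynomial vector field `det(G) v - Aᵀ adj(G) A v` -/
noncomputable def field (F : Finset (Sym2 V)) (v q : Conf V) : Conf V :=
  fun w i => (gramM F q).det * v w i - corr F v q (w, i)

theorem contDiff_field (F : Finset (Sym2 V)) (v : Conf V) : ContDiff ℝ 1 (field F v) := by
  rw [contDiff_pi]
  intro w
  rw [contDiff_pi]
  intro i
  unfold field corr
  apply ContDiff.sub
  · exact (contDiff_det (contDiff_gramM F)).mul contDiff_const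
  · apply contDiff_mulVec (fun i j => contDiff_realM F j i)
    intro j
    apply contDiff_mulVec (contDiff_adjugate (contDiff_gramM F))
    intro k
    exact contDiff_mulVec (x := fun _ w => v w.1 w.2) (contDiff_realM F)
      (fun _ => contDiff_const) k

theorem rig_field (F : Finset (Sym2 V)) (v q : Conf V) : ∀ e ∈ F, rig q (field F v q) e = 0 := by
  intro e he
  have h1 := realM_mulVec F q (field F v q) ⟨e, he⟩
  rw [← h1]
  have h2 : (fun w : V × Fin 2 => field F v q w.1 w.2) =
      (gramM F q).det • (fun w : V × Fin 2 => v w.1 w.2) - corr F v q := by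
    funext w
    simp [field]
  rw [h2, Matrix.mulVec_sub, Matrix.mulVec_smul]
  have h3 : (realM F q).mulVec (corr F v q) =
      (gramM F q).det • (realM F q).mulVec (fun w => v w.1 w.2) := by
    unfold corr
    rw [Matrix.mulVec_mulVec]
    have h4 : realM F q * (realM F q).transpose = gramM F q := rfl
    rw [h4, Matrix.mulVec_mulVec, Matrix.mul_adjugate, Matrix.smul_mulVec, Matrix.one_mulVec]
  rw [h3]
  simp

theorem field_self (F : Finset (Sym2 V)) (v q : Conf V) (hv : ∀ e ∈ F, rig q v e = 0) :
    field F v q = (gramM F q).det • v := by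
  have h1 : (realM F q).mulVec (fun w => v w.1 w.2) = 0 := by
    funext e
    rw [realM_mulVec, hv e.1 e.2]
    rfl
  funext w i
  simp [field, corr, h1]

/-! ### Existence of a nontrivial infinitesimal motion -/

/-- rigidity map of `F` -/
def rigL (F : Finset (Sym2 V)) (p : Conf V) : Conf V →ₗ[ℝ] (F → ℝ) where
  toFun q e := rig p q e.1
  map_add' q q' := by funext e; exact rig_add _ _ _ _
  map_smul' c q := by funext e; exact rig_smul _ _ _ _

theorem finrank_conf : Module.finrank ℝ (Conf V) = 2 * Fintype.card V := by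
  rw [Module.finrank_pi_fintype]
  simp [mul_comm]

theorem exists_motion {F : Finset (Sym2 V)} {p : Conf V} (hp : GenP p)
    (hc : F.card + 3 < 2 * Fintype.card V) :
    ∃ v : Conf V, (∀ e ∈ F, rig p v e = 0) ∧ ∃ a b : V, rig p v s(a, b) ≠ 0 := by
  by_contra hcon
  push Not at hcon
  have h1 := LinearMap.finrank_range_add_finrank_ker (rigL F p)
  rw [finrank_conf] at h1
  have h2 : Module.finrank ℝ (LinearMap.range (rigL F p)) ≤ F.card := by
    have := Submodule.finrank_le (LinearMap.range (rigL F p))
    rw [Module.finrank_fintype_fun_eq_card, Fintype.card_coe] at this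
    exact this
  obtain ⟨a, b, hab⟩ := Fintype.exists_pair_of_one_lt_card
    (show 1 < Fintype.card V by omega)
  let T : LinearMap.ker (rigL F p) →ₗ[ℝ] (Fin 3 → ℝ) :=
    { toFun := fun q => ![q.1 a 0, q.1 a 1, crs (p b - p a) (q.1 b - q.1 a)]
      map_add' := fun x y => by
        funext i
        fin_cases i
        · simp
        · simp
        · simp [crs]; ring
      map_smul' := fun c x => by
        funext i
        fin_cases i
        · simp
        · simp
        · simp [crs]; ring }
  have hT : Function.Injective T := by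
    rw [← LinearMap.ker_eq_bot, LinearMap.ker_eq_bot']
    rintro ⟨q, hq⟩ hx
    have hq' : ∀ e ∈ F, rig p q e = 0 := fun e he => by
      have := congrFun (LinearMap.mem_ker.1 hq) ⟨e, he⟩
      exact this
    have hall := hcon q hq'
    have h0 := congrFun hx 0
    have h1 := congrFun hx 1
    have h2 := congrFun hx 2
    simp only [T, LinearMap.coe_mk, AddHom.coe_mk, Matrix.cons_val_zero, Matrix.cons_val_one,
      Matrix.cons_val_two, Matrix.head_cons, Matrix.tail_cons,
      Pi.zero_apply] at h0 h1 h2
    have hqa : q a = 0 := by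
      funext i
      fin_cases i
      · exact h0
      · exact h1
    have hdotab := hall a b
    rw [rig_mk, hqa] at hdotab
    rw [hqa] at h2
    have hz : ∀ d x : Fin 2 → ℝ, d ≠ 0 → dot d x = 0 → crs d x = 0 → x = 0 := by
      intro d x hd h1 h2
      simp only [dot, crs] at h1 h2
      have hs : d 0 * d 0 + d 1 * d 1 ≠ 0 := by
        intro h0
        apply hd
        have g1 : d 0 = 0 := by nlinarith [sq_nonneg (d 0), sq_nonneg (d 1)]
        have g2 : d 1 = 0 := by nlinarith [sq_nonneg (d 0), sq_nonneg (d 1)]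
        funext i
        fin_cases i
        · exact g1
        · exact g2
      have e0 : (d 0 * d 0 + d 1 * d 1) * x 0 = 0 := by linear_combination d 0 * h1 - d 1 * h2
      have e1 : (d 0 * d 0 + d 1 * d 1) * x 1 = 0 := by linear_combination d 1 * h1 + d 0 * h2
      funext i
      fin_cases i
      · exact (mul_eq_zero.1 e0).resolve_left hs
      · exact (mul_eq_zero.1 e1).resolve_left hs
    have hqb : q b = 0 := by
      apply hz (p b - p a) (q b) (hp.ne hab.symm)
      · simp only [dot, Pi.sub_apply, Pi.zero_apply] at hdotab ⊢; linarith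
      · simpa using h2
    have hqc : ∀ c, q c = 0 := by
      intro c
      by_cases hca : c = a
      · rw [hca]; exact hqa
      by_cases hcb : c = b
      · rw [hcb]; exact hqb
      have h3 := hall c a
      have h4 := hall c b
      rw [rig_mk, hqa] at h3
      rw [rig_mk, hqb] at h4
      have h5 := hp.crs_ne hca hcb hab
      simp only [dot, crs, Pi.sub_apply, Pi.zero_apply, sub_zero] at h3 h4 h5
      have e0 : ((p c 0 - p a 0) * (p c 1 - p b 1) - (p c 1 - p a 1) * (p c 0 - p b 0)) *
          q c 0 = 0 := by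
        linear_combination (p c 1 - p b 1) * h3 - (p c 1 - p a 1) * h4
      have e1 : ((p c 0 - p a 0) * (p c 1 - p b 1) - (p c 1 - p a 1) * (p c 0 - p b 0)) *
          q c 1 = 0 := by
        linear_combination (p c 0 - p a 0) * h4 - (p c 0 - p b 0) * h3
      funext i
      fin_cases i
      · exact (mul_eq_zero.1 e0).resolve_left h5
      · exact (mul_eq_zero.1 e1).resolve_left h5
    apply Subtype.ext
    funext c
    exact hqc c
  have h3 := LinearMap.finrank_le_finrank_of_injective hT
  have h4 : Module.finrank ℝ (Fin 3 → ℝ) = 3 := by simp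
  omega

/-- if the row of `e` is nonzero on the kernel of `F` at `q`, then `insert e F` is independent -/
theorem indP_insert {F : Finset (Sym2 V)} {q : Conf V} (h : IndP F q) {e : Sym2 V}
    {x : Conf V} (hx : ∀ f ∈ F, rig q x f = 0) (he : rig q x e ≠ 0) :
    IndP (insert e F) q := by
  intro b
  obtain ⟨y, hy⟩ := h b
  refine ⟨y + ((b e - rig q y e) / rig q x e) • x, ?_⟩
  intro f hf
  rw [rig_add, rig_smul]
  rcases mem_insert.1 hf with rfl | hf
  · rw [div_mul_cancel₀ _ he]; ring
  · rw [hx f hf, hy f hf]; ring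

/-- A generic framework whose edge set contains no independent set of size `2n-3` is flexible. -/
theorem flexible {p : Conf V} (hp : GenP p) (hn : 2 ≤ Fintype.card V) (E : Finset (Sym2 V))
    (hE : ∀ F ⊆ E, Sparse F → F.card + 3 ≠ 2 * Fintype.card V) :
    ∃ γ : ℝ → Conf V, Continuous γ ∧ γ 0 = p ∧
      (∀ t ∈ Set.Icc (0 : ℝ) 1, ∀ e ∈ E, lsq (γ t) e = lsq p e) ∧
      ∃ t ∈ Set.Icc (0 : ℝ) 1, ∃ a b : V, lsq (γ t) s(a, b) ≠ lsq p s(a, b) := by
  classical
  -- maximal independent subset
  have hne : (E.powerset.filter (fun F => IndP F p)).Nonempty := by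
    refine ⟨∅, mem_filter.2 ⟨empty_mem_powerset E, fun b => ⟨0, by simp⟩⟩⟩
  obtain ⟨F, hF, hmax⟩ := exists_max_image _ Finset.card hne
  rw [mem_filter, mem_powerset] at hF
  have hins : ∀ e ∈ E, e ∉ F → ∀ q : Conf V, ¬ IndP (insert e F) q := by
    intro e he heF q hq
    have h1 := hq.generic hp
    have h2 := hmax (insert e F) (mem_filter.2 ⟨mem_powerset.2 (insert_subset he hF.1), h1⟩)
    rw [card_insert_of_notMem heF] at h2
    omega
  have hsp : Sparse F := sparse_of_ind hF.2 hp.injective
  have hcard : F.card + 3 < 2 * Fintype.card V := by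
    have h1 := hsp.2 univ (by rw [card_univ]; exact hn)
    have h2 : ind F univ = F.card := by
      unfold ind
      congr 1
      rw [inter_eq_left]
      intro e _
      rw [Finset.mem_sym2_iff]
      exact fun _ _ => mem_univ _
    have h3 := hE F hF.1 hsp
    rw [card_univ] at h1
    omega
  obtain ⟨v, hv, a, b, hab⟩ := exists_motion hp hcard
  obtain ⟨α, hα0, ε, hε, hα⟩ :=
    (contDiff_field F v).contDiffAt.exists_forall_mem_closedBall_exists_eq_forall_mem_Ioo_hasDerivAt₀
      (x₀ := p) 0
  simp only [zero_sub, zero_add] at hα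
  -- near `p` the set `F` is independent
  have hdetc : Continuous (fun q : Conf V => (gramM F q).det) :=
    (contDiff_det (contDiff_gramM F)).continuous
  have hdet0 : (gramM F p).det ≠ 0 := (indP_iff_det F p).1 hF.2
  have hα_cont : ContinuousAt α 0 := (hα 0 ⟨by linarith, hε⟩).continuousAt
  have hev : ∀ᶠ t in nhds (0 : ℝ), (gramM F (α t)).det ≠ 0 := by
    have h1 : ContinuousAt (fun t => (gramM F (α t)).det) 0 :=
      ContinuousAt.comp (f := α) (g := fun q => (gramM F q).det) hdetc.continuousAt hα_cont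
    have h2 : (gramM F (α 0)).det ≠ 0 := by rw [hα0]; exact hdet0
    exact h1.eventually_ne h2
  obtain ⟨δ', hδ', hball⟩ := Metric.eventually_nhds_iff.1 hev
  set δ := min (ε / 2) (δ' / 2) with hδ
  have hδpos : 0 < δ := lt_min (by linarith) (by linarith)
  have hδε : δ < ε := (min_le_left _ _).trans_lt (by linarith)
  have hδδ' : δ < δ' := (min_le_right _ _).trans_lt (by linarith)
  have hderiv : ∀ t ∈ Set.Icc (0 : ℝ) δ, HasDerivAt α (field F v (α t)) t := fun t ht =>
    hα t ⟨by linarith [ht.1], by linarith [ht.2]⟩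
  have hzero : ∀ t ∈ Set.Icc (0 : ℝ) δ, ∀ e ∈ E, rig (α t) (field F v (α t)) e = 0 := by
    intro t ht e he
    by_cases heF : e ∈ F
    · exact rig_field F v (α t) e heF
    · by_contra hne0
      have h1 : IndP F (α t) := (indP_iff_det F (α t)).2 (hball (by
        rw [Real.dist_eq, sub_zero, abs_of_nonneg ht.1]
        linarith [ht.2]))
      exact hins e he heF (α t) (indP_insert h1 (rig_field F v (α t)) hne0)
  have hconst : ∀ e ∈ E, ∀ t ∈ Set.Icc (0 : ℝ) δ, lsq (α t) e = lsq p e := by
    intro e he t ht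
    have h1 := constant_of_has_deriv_right_zero (f := fun s => lsq (α s) e) (a := 0) (b := δ)
      (fun s hs => (hasDerivAt_lsq (hderiv s hs) e).continuousAt.continuousWithinAt)
      (fun s hs => by
        have h2 := hasDerivAt_lsq (hderiv s ⟨hs.1, hs.2.le⟩) e
        rw [hzero s ⟨hs.1, hs.2.le⟩ e he, mul_zero] at h2
        exact h2.hasDerivWithinAt) t ht
    simp only [hα0] at h1
    exact h1
  -- clamp the time
  let c : ℝ → ℝ := fun t => δ * (max 0 (min 1 t))
  have hc : ∀ t, c t ∈ Set.Icc (0 : ℝ) δ := by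
    intro t
    have h1 : 0 ≤ max 0 (min 1 t) := le_max_left _ _
    have h2 : max 0 (min 1 t) ≤ 1 := max_le zero_le_one (min_le_left _ _)
    exact ⟨mul_nonneg hδpos.le h1, by nlinarith⟩
  have hc1 : ∀ t ∈ Set.Icc (0 : ℝ) 1, c t = δ * t := by
    intro t ht
    simp only [c]
    rw [min_eq_right ht.2, max_eq_right ht.1]
  refine ⟨fun t => α (c t), ?_, ?_, ?_, ?_⟩
  · rw [continuous_iff_continuousAt]
    intro t
    exact ContinuousAt.comp (f := c) (g := α) (hderiv (c t) (hc t)).continuousAt
      (by fun_prop)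
  · simp only
    rw [hc1 0 ⟨le_rfl, zero_le_one⟩, mul_zero, hα0]
  · intro t _ e he
    exact hconst e he _ (hc t)
  · by_contra hcon
    push Not at hcon
    have h1 : ∀ s ∈ Set.Icc (0 : ℝ) δ, lsq (α s) s(a, b) = lsq p s(a, b) := by
      intro s hs
      have h2 : s / δ ∈ Set.Icc (0 : ℝ) 1 :=
        ⟨div_nonneg hs.1 hδpos.le, (div_le_one hδpos).2 hs.2⟩
      have h3 := hcon (s / δ) h2 a b
      rw [hc1 _ h2, mul_div_cancel₀ _ hδpos.ne'] at h3
      exact h3
    have h2 := (hasDerivAt_lsq (hderiv 0 ⟨le_rfl, hδpos.le⟩) s(a, b)).hasDerivWithinAt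
      (s := Set.Icc 0 δ)
    have h3 : HasDerivWithinAt (fun s => lsq (α s) s(a, b)) 0 (Set.Icc 0 δ) 0 := by
      have h4 : HasDerivWithinAt (fun _ : ℝ => lsq p s(a, b)) 0 (Set.Icc 0 δ) 0 :=
        hasDerivWithinAt_const _ _ _
      exact h4.congr (fun s hs => h1 s hs) (h1 0 ⟨le_rfl, hδpos.le⟩)
    have h4 := (uniqueDiffOn_Icc hδpos 0 ⟨le_rfl, hδpos.le⟩).eq_deriv _ h2 h3
    rw [hα0, field_self F v p hv, rig_smul] at h4
    have h5 : (gramM F p).det * rig p v s(a, b) ≠ 0 := mul_ne_zero hdet0 hab
    apply h5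
    linarith

end

end Pool.Agent.H.MP_d01483_lc
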