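import Pool.Agent.H.MP_d01483_lc.Laman.Rig

/-!
Laman's theorem, infinitesimal version: at a generic configuration the rows of `F` are
independent if and only if `F` is (2,3)-sparse.
-/

set_option linter.unusedSectionVars false
set_option linter.unusedVariables false

namespace Pool.Agent.H.MP_d01483_lc

open Finset

section
variable {V : Type} [DecidableEq V]

theorem ind_disjoint {F : Finset (Sym2 V)} (h : Sparse F) {X Y : Finset V}
    (hXY : (X ∩ Y).card ≤ 1) : Disjoint (F ∩ X.sym2) (F ∩ Y.sym2) := by
  rw [Finset.disjoint_left]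
  intro e he he'
  rw [mem_inter] at he he'
  have hd := h.1 e he.1
  induction e using Sym2.ind with
  | h x y =>
    rw [Sym2.mk_isDiag_iff] at hd
    have h1 := Finset.mk_mem_sym2_iff.1 he.2
    have h2 := Finset.mk_mem_sym2_iff.1 he'.2
    have h3 : ({x, y} : Finset V) ⊆ X ∩ Y := by
      intro z hz
      rw [mem_insert, mem_singleton] at hz
      rcases hz with rfl | rfl
      · exact mem_inter.2 ⟨h1.1, h2.1⟩
      · exact mem_inter.2 ⟨h1.2, h2.2⟩
    have h4 := card_le_card h3
    rw [card_pair hd] at h4
    omega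

/-- the edges avoiding `v` -/
def delV (F : Finset (Sym2 V)) (v : V) : Finset (Sym2 V) := F.filter (fun e => v ∉ e)

theorem delV_subset (F : Finset (Sym2 V)) (v : V) : delV F v ⊆ F := filter_subset _ _

theorem exists_unspanned {F : Finset (Sym2 V)} (h : Sparse F) {v a b c : V} (hab : a ≠ b)
    (hac : a ≠ c) (hbc : b ≠ c) (hva : s(v, a) ∈ F) (hvb : s(v, b) ∈ F) (hvc : s(v, c) ∈ F) :
    ¬ Spanned (delV F v) s(a, b) ∨ ¬ Spanned (delV F v) s(a, c) ∨
      ¬ Spanned (delV F v) s(b, c) := by
  have h0 : Sparse (delV F v) := h.subset (delV_subset F v)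
  have hnv : ∀ X, Tight (delV F v) X → v ∉ X := by
    intro X hX hv
    obtain ⟨e, he, _, hve⟩ := tight_deg h0 hX hv
    exact (mem_filter.1 he).2 hve
  have claim1 : ∀ X, Tight (delV F v) X → a ∈ X → b ∈ X → c ∈ X → False := by
    intro X hX ha hb hc
    have hv := hnv X hX
    have h1 := h.2 (insert v X) (by rw [card_insert_of_notMem hv]; have := hX.1; omega)
    rw [card_insert_of_notMem hv] at h1
    have h2 : (delV F v ∩ X.sym2) ∪ {s(v, a), s(v, b), s(v, c)} ⊆
        F ∩ (insert v X).sym2 := by
      intro e he
      rw [mem_union] at he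
      rcases he with he | he
      · rw [mem_inter] at he ⊢
        exact ⟨delV_subset F v he.1, Finset.sym2_mono (subset_insert v X) he.2⟩
      · rw [mem_insert, mem_insert, mem_singleton] at he
        rw [mem_inter]
        rcases he with rfl | rfl | rfl
        · exact ⟨hva, by simp [ha]⟩
        · exact ⟨hvb, by simp [hb]⟩
        · exact ⟨hvc, by simp [hc]⟩
    have h3 := card_le_card h2
    have h4 : Disjoint (delV F v ∩ X.sym2) {s(v, a), s(v, b), s(v, c)} := by
      rw [Finset.disjoint_left]
      intro e he he'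
      have h5 := (mem_filter.1 (mem_inter.1 he).1).2
      rw [mem_insert, mem_insert, mem_singleton] at he'
      rcases he' with rfl | rfl | rfl <;> simp at h5
    rw [card_union_of_disjoint h4] at h3
    have h6 : ({s(v, a), s(v, b), s(v, c)} : Finset (Sym2 V)).card = 3 := by
      rw [card_eq_three]
      refine ⟨_, _, _, ?_, ?_, ?_, rfl⟩
      · intro hh; exact hab (Sym2.congr_right.1 hh)
      · intro hh; exact hac (Sym2.congr_right.1 hh)
      · intro hh; exact hbc (Sym2.congr_right.1 hh)
    rw [h6] at h3
    have h7 := hX.2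
    unfold ind at h1 h7
    omega
  by_contra hcon
  push Not at hcon
  obtain ⟨⟨X, hX, hX2⟩, ⟨Y, hY, hY2⟩, ⟨Z, hZ, hZ2⟩⟩ := hcon
  rw [Finset.mk_mem_sym2_iff] at hX2 hY2 hZ2
  have hXY : (X ∩ Y).card ≤ 1 := by
    by_contra hc
    exact claim1 _ (tight_union h0 hX hY (by omega)) (mem_union_left _ hX2.1)
      (mem_union_left _ hX2.2) (mem_union_right _ hY2.2)
  have hXZ : (X ∩ Z).card ≤ 1 := by
    by_contra hc
    exact claim1 _ (tight_union h0 hX hZ (by omega)) (mem_union_left _ hX2.1)
      (mem_union_left _ hX2.2) (mem_union_right _ hZ2.2)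
  have hYZ : (Y ∩ Z).card ≤ 1 := by
    by_contra hc
    exact claim1 _ (tight_union h0 hY hZ (by omega)) (mem_union_left _ hY2.1)
      (mem_union_right _ hZ2.1) (mem_union_left _ hY2.2)
  have d1 := ind_disjoint h0 hXY
  have d2 := ind_disjoint h0 hXZ
  have d3 := ind_disjoint h0 hYZ
  have h1 : ((delV F v ∩ X.sym2) ∪ (delV F v ∩ Y.sym2)) ∪ (delV F v ∩ Z.sym2) ⊆
      delV F v ∩ ((X ∪ Y) ∪ Z).sym2 := by
    intro e he
    rw [mem_union, mem_union, mem_inter, mem_inter, mem_inter] at he
    rw [mem_inter]
    rcases he with (he | he) | he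
    · exact ⟨he.1, Finset.sym2_mono (subset_union_left.trans subset_union_left) he.2⟩
    · exact ⟨he.1, Finset.sym2_mono (subset_union_right.trans subset_union_left) he.2⟩
    · exact ⟨he.1, Finset.sym2_mono subset_union_right he.2⟩
  have h2 := card_le_card h1
  rw [card_union_of_disjoint (Finset.disjoint_union_left.2 ⟨d2, d3⟩),
    card_union_of_disjoint d1] at h2
  have h3 := card_union_add_card_inter X Y
  have h4 := card_union_add_card_inter (X ∪ Y) Z
  have h5 : 2 ≤ ((X ∪ Y) ∩ Z).card := by
    have : ({b, c} : Finset V) ⊆ (X ∪ Y) ∩ Z := by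
      intro z hz
      rw [mem_insert, mem_singleton] at hz
      rcases hz with rfl | rfl
      · exact mem_inter.2 ⟨mem_union_left _ hX2.2, hZ2.1⟩
      · exact mem_inter.2 ⟨mem_union_right _ hY2.2, hZ2.2⟩
    have h6 := card_le_card this
    rwa [card_pair hbc] at h6
  have h6 : 1 ≤ (X ∩ Y).card := card_pos.2 ⟨a, mem_inter.2 ⟨hX2.1, hY2.1⟩⟩
  have h7 : 2 ≤ ((X ∪ Y) ∪ Z).card := by
    have : Z.card ≤ ((X ∪ Y) ∪ Z).card := card_le_card subset_union_right
    have := hZ.1
    omega
  have h8 := h0.2 _ h7
  have hx := hX.2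
  have hy := hY.2
  have hz := hZ.2
  unfold ind at h8 hx hy hz
  apply claim1 ((X ∪ Y) ∪ Z) ⟨h7, ?_⟩ (by simp [hX2.1]) (by simp [hX2.2]) (by simp [hZ2.2])
  unfold ind
  omega

theorem exists_deg_le_three {F : Finset (Sym2 V)} (h : Sparse F) {W : Finset V}
    (hFW : F ⊆ W.sym2) (hW : 2 ≤ W.card) : ∃ v ∈ W, (F.filter (fun e => v ∈ e)).card ≤ 3 := by
  by_contra hcon
  push Not at hcon
  have h1 := h.2 W hW
  have h2 : ind F W = F.card := by
    unfold ind
    rw [inter_eq_left.2 hFW]
  have h3 : ∑ v ∈ W, (F.filter (fun e => v ∈ e)).card =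
      ∑ e ∈ F, (W.filter (fun v => v ∈ e)).card := by
    simp only [card_filter]
    exact sum_comm
  have h4 : ∀ e ∈ F, (W.filter (fun v => v ∈ e)).card = 2 := by
    intro e he
    have hd := h.1 e he
    have hW := hFW he
    induction e using Sym2.ind with
    | h x y =>
      rw [Sym2.mk_isDiag_iff] at hd
      rw [Finset.mk_mem_sym2_iff] at hW
      have : W.filter (fun v => v ∈ s(x, y)) = {x, y} := by
        ext v
        simp only [mem_filter, Sym2.mem_iff, mem_insert, mem_singleton]
        constructor
        · exact fun h => h.2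
        · rintro (rfl | rfl)
          · exact ⟨hW.1, Or.inl rfl⟩
          · exact ⟨hW.2, Or.inr rfl⟩
      rw [this, card_pair hd]
  rw [sum_congr rfl h4, sum_const, smul_eq_mul] at h3
  have h5 : ∑ v ∈ W, 4 ≤ ∑ v ∈ W, (F.filter (fun e => v ∈ e)).card :=
    sum_le_sum fun v hv => hcon v hv
  rw [sum_const, smul_eq_mul, h3] at h5
  omega

variable [Fintype V]

theorem rig_update {v : V} {e : Sym2 V} (hv : v ∉ e) (p q : Conf V) (y x : Fin 2 → ℝ) :
    rig (Function.update p v y) (Function.update q v x) e = rig p q e := by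
  induction e using Sym2.ind with
  | h a b =>
    rw [Sym2.mem_iff, not_or] at hv
    rw [rig_mk, rig_mk, Function.update_of_ne (Ne.symm hv.1),
      Function.update_of_ne (Ne.symm hv.2), Function.update_of_ne (Ne.symm hv.1),
      Function.update_of_ne (Ne.symm hv.2)]

theorem extend_conf {F : Finset (Sym2 V)} (h : Sparse F) {v : V} {p : Conf V}
    {y : Fin 2 → ℝ} (b : Sym2 V → ℝ) (q : Conf V) (hq : ∀ e ∈ F, v ∉ e → rig p q e = b e)
    (x : Fin 2 → ℝ) (hx : ∀ a, s(v, a) ∈ F → dot (y - p a) (x - q a) = b s(v, a)) :
    ∀ e ∈ F, rig (Function.update p v y) (Function.update q v x) e = b e := by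
  intro e he
  by_cases hv : v ∈ e
  · obtain ⟨a, rfl⟩ := hv
    have hva : a ≠ v := by
      intro hh
      subst hh
      exact h.1 _ he (by simp)
    rw [rig_mk, Function.update_self, Function.update_self, Function.update_of_ne hva,
      Function.update_of_ne hva]
    exact hx a he
  · rw [rig_update hv]
    exact hq e he hv

/-- Laman's theorem, sufficiency. -/
theorem ind_of_sparse_aux {p : Conf V} (hp : GenP p) : ∀ (n : ℕ) (W : Finset V), W.card = n →
    ∀ F : Finset (Sym2 V), F ⊆ W.sym2 → Sparse F → IndP F p := by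
  intro n
  induction n with
  | zero =>
    intro W hW F hF hs
    rw [card_eq_zero] at hW
    subst hW
    intro b
    refine ⟨0, fun e he => ?_⟩
    have := hF he
    simp at this
  | succ n ih =>
    intro W hW F hF hs
    rcases Nat.lt_or_ge W.card 2 with hlt | hge
    · obtain ⟨w, rfl⟩ := card_eq_one.1 (show W.card = 1 by omega)
      intro b
      refine ⟨0, fun e he => ?_⟩
      have h1 := hF he
      have h2 := hs.1 e he
      exfalso
      apply h2
      induction e using Sym2.ind with
      | h x y =>
        rw [Finset.mk_mem_sym2_iff, mem_singleton, mem_singleton] at h1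
        rw [Sym2.mk_isDiag_iff, h1.1, h1.2]
    obtain ⟨v, hvW, hdeg⟩ := exists_deg_le_three hs hF hge
    have hW' : (W.erase v).card = n := by rw [card_erase_of_mem hvW]; omega
    have hsub : delV F v ⊆ (W.erase v).sym2 := by
      intro e he
      have h1 := mem_filter.1 he
      have h2 := hF h1.1
      rw [Finset.mem_sym2_iff] at h2 ⊢
      intro a ha
      refine mem_erase.2 ⟨?_, h2 a ha⟩
      rintro rfl
      exact h1.2 ha
    have hs0 : Sparse (delV F v) := hs.subset (delV_subset F v)
    have ih0 := ih (W.erase v) hW' (delV F v) hsub hs0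
    set N := W.filter (fun a => s(v, a) ∈ F) with hN
    have hNmem : ∀ a, s(v, a) ∈ F ↔ a ∈ N := by
      intro a
      rw [hN, mem_filter]
      constructor
      · intro h
        have := hF h
        rw [Finset.mk_mem_sym2_iff] at this
        exact ⟨this.2, h⟩
      · exact fun h => h.2
    have hNv : ∀ a ∈ N, a ≠ v := by
      rintro a ha rfl
      exact hs.1 _ ((hNmem _).2 ha) (by simp)
    have hNcard : N.card ≤ 3 := by
      refine le_trans ?_ hdeg
      apply card_le_card_of_injOn (fun a => s(v, a))
      · intro a ha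
        exact mem_filter.2 ⟨(hNmem a).2 ha, by simp⟩
      · intro a _ b _ hab
        exact Sym2.congr_right.1 hab
    have hupd : Function.update p v (p v) = p := Function.update_eq_self v p
    -- solving at `v` without moving it
    have simple : (∀ (q : Conf V) (b : Sym2 V → ℝ), ∃ x : Fin 2 → ℝ, ∀ a ∈ N,
        dot (p v - p a) (x - q a) = b s(v, a)) → IndP F p := by
      intro hsolve b
      obtain ⟨q, hq⟩ := ih0 b
      obtain ⟨x, hx⟩ := hsolve q b
      refine ⟨Function.update q v x, ?_⟩
      have := extend_conf hs (p := p) (y := p v) b q (fun e he hve =>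
        hq e (mem_filter.2 ⟨he, hve⟩)) x (fun a ha => hx a ((hNmem a).1 ha))
      rwa [hupd] at this
    have dsub : ∀ d x y : Fin 2 → ℝ, dot d (x - y) = dot d x - dot d y := by
      intro d x y; simp only [dot, Pi.sub_apply]; ring
    have hcases : N.card = 0 ∨ N.card = 1 ∨ N.card = 2 ∨ N.card = 3 := by omega
    rcases hcases with h0 | h1 | h2 | h3
    · apply simple
      intro q b
      rw [card_eq_zero] at h0
      exact ⟨0, by simp [h0]⟩
    · obtain ⟨a, ha⟩ := card_eq_one.1 h1
      apply simple
      intro q b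
      have hav : a ≠ v := hNv a (by simp [ha])
      obtain ⟨x, hx⟩ := solve1 (hp.ne hav.symm) (b s(v, a) + dot (p v - p a) (q a))
      refine ⟨x, ?_⟩
      intro a' ha'
      rw [ha, mem_singleton] at ha'
      subst ha'
      rw [dsub, hx]
      ring
    · obtain ⟨a, c, hac, ha⟩ := card_eq_two.1 h2
      apply simple
      intro q b
      have hav : a ≠ v := hNv a (by simp [ha])
      have hcv : c ≠ v := hNv c (by simp [ha])
      obtain ⟨x, hx, hx'⟩ := solve2 (hp.crs_ne hav.symm hcv.symm hac)
        (b s(v, a) + dot (p v - p a) (q a)) (b s(v, c) + dot (p v - p c) (q c))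
      refine ⟨x, ?_⟩
      intro a' ha'
      rw [ha, mem_insert, mem_singleton] at ha'
      rcases ha' with rfl | rfl
      · rw [dsub, hx]; ring
      · rw [dsub, hx']; ring
    · -- degree three
      obtain ⟨a, b, c, hab, hac, hbc, ha⟩ := card_eq_three.1 h3
      -- the extension lemma for a chosen pair
      have key : ∀ a b c : V, a ≠ b → a ≠ c → b ≠ c → N = {a, b, c} →
          ¬ Spanned (delV F v) s(a, b) → IndP F p := by
        intro a b c hab hac hbc ha hsp
        have hav : a ≠ v := hNv a (by simp [ha])
        have hbv : b ≠ v := hNv b (by simp [ha])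
        have hcv : c ≠ v := hNv c (by simp [ha])
        have hs1 : Sparse (insert s(a, b) (delV F v)) :=
          sparse_insert hs0 (by rw [Sym2.mk_isDiag_iff]; exact hab) hsp
        have hnot : s(a, b) ∉ delV F v := fun h => hsp (spanned_of_mem hs0 h)
        have haW : a ∈ W.erase v := mem_erase.2 ⟨hav, (mem_filter.1 (hN ▸
          (show a ∈ N by simp [ha]))).1⟩
        have hbW : b ∈ W.erase v := mem_erase.2 ⟨hbv, (mem_filter.1 (hN ▸
          (show b ∈ N by simp [ha]))).1⟩
        have ih1 := ih (W.erase v) hW' (insert s(a, b) (delV F v))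
          (insert_subset (Finset.mk_mem_sym2_iff.2 ⟨haW, hbW⟩) hsub) hs1
        set m : Fin 2 → ℝ := fun i => (p a i + p b i) / 2 with hm
        have hcr : crs (p b - p a) (m - p c) ≠ 0 := by
          have h1 := hp.crs_ne hab hac hbc
          have h2 : crs (p b - p a) (m - p c) = - crs (p a - p b) (p a - p c) := by
            simp only [crs, hm, Pi.sub_apply]; ring
          rw [h2]
          exact neg_ne_zero.2 h1
        have hstar : IndP F (Function.update p v m) := by
          intro β
          classical
          obtain ⟨q, hq⟩ := ih1 (fun e => if e = s(a, b) then 2 * (β s(v, a) + β s(v, b))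
            else β e)
          have hqab : dot (p a - p b) (q a - q b) = 2 * (β s(v, a) + β s(v, b)) := by
            have := hq s(a, b) (mem_insert_self _ _)
            rwa [if_pos rfl, rig_mk] at this
          obtain ⟨x, hx, hx'⟩ := solve2 hcr (2 * β s(v, a) + dot (p b - p a) (q a))
            (β s(v, c) + dot (m - p c) (q c))
          refine ⟨Function.update q v x, ?_⟩
          apply extend_conf hs
          · intro e he hve
            have h1 : e ∈ delV F v := mem_filter.2 ⟨he, hve⟩
            have h2 := hq e (mem_insert_of_mem h1)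
            have h3 : e ≠ s(a, b) := by
              intro h3
              rw [h3] at h1
              exact hnot h1
            rwa [if_neg h3] at h2
          · intro a' ha'
            rw [hNmem, ha, mem_insert, mem_insert, mem_singleton] at ha'
            rcases ha' with rfl | rfl | rfl
            · simp only [dot, hm, Pi.sub_apply] at hx hqab ⊢
              linarith
            · simp only [dot, hm, Pi.sub_apply] at hx hqab ⊢
              linarith
            · rw [dsub, hx']; ring
        exact hstar.generic hp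
      have m1 : s(v, a) ∈ F := (hNmem a).2 (by simp [ha])
      have m2 : s(v, b) ∈ F := (hNmem b).2 (by simp [ha])
      have m3 : s(v, c) ∈ F := (hNmem c).2 (by simp [ha])
      rcases exists_unspanned hs hab hac hbc m1 m2 m3 with h | h | h
      · exact key a b c hab hac hbc ha h
      · refine key a c b hac hab hbc.symm ?_ h
        rw [ha]; ext z; simp only [mem_insert, mem_singleton]; tauto
      · refine key b c a hbc hab.symm hac.symm ?_ h
        rw [ha]; ext z; simp only [mem_insert, mem_singleton]; tauto

theorem ind_of_sparse {p : Conf V} (hp : GenP p) {F : Finset (Sym2 V)} (hF : Sparse F) :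
    IndP F p :=
  ind_of_sparse_aux hp _ univ rfl F (fun e _ => by
    rw [Finset.mem_sym2_iff]; exact fun _ _ => mem_univ _) hF

/-! ### Necessity -/

/-- trivial infinitesimal motions -/
def triv (p : Conf V) (x : Fin 3 → ℝ) : Conf V :=
  fun v => ![x 0 - x 2 * p v 1, x 1 + x 2 * p v 0]

theorem rig_triv (p : Conf V) (x : Fin 3 → ℝ) (e : Sym2 V) : rig p (triv p x) e = 0 := by
  induction e using Sym2.ind with
  | h u v =>
    simp only [rig_mk, dot, triv, Pi.sub_apply, Matrix.cons_val_zero, Matrix.cons_val_one]
    ring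

/-- extension by zero -/
def ext0 (Z : Finset V) (q : Z → Fin 2 → ℝ) : Conf V :=
  fun v => if h : v ∈ Z then q ⟨v, h⟩ else 0

/-- the rigidity map on the edges of `F` inside `Z` -/
def rigZ (F : Finset (Sym2 V)) (Z : Finset V) (p : Conf V) :
    (Z → Fin 2 → ℝ) →ₗ[ℝ] ((F ∩ Z.sym2 : Finset (Sym2 V)) → ℝ) where
  toFun q e := rig p (ext0 Z q) e.1
  map_add' q q' := by
    funext e
    have : ext0 Z (q + q') = ext0 Z q + ext0 Z q' := by
      funext v i
      by_cases h : v ∈ Z <;> simp [ext0, h]
    rw [this, rig_add]
    rfl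
  map_smul' c q := by
    funext e
    have : ext0 Z (c • q) = c • ext0 Z q := by
      funext v i
      by_cases h : v ∈ Z <;> simp [ext0, h]
    rw [this, rig_smul]
    rfl

theorem rig_ext0 (Z : Finset V) (p q : Conf V) {e : Sym2 V} (he : e ∈ Z.sym2) :
    rig p (ext0 Z (fun v => q v.1)) e = rig p q e := by
  induction e using Sym2.ind with
  | h u v =>
    rw [Finset.mk_mem_sym2_iff] at he
    rw [rig_mk, rig_mk]
    simp [ext0, he.1, he.2]

theorem sparse_of_ind {F : Finset (Sym2 V)} {p : Conf V} (h : IndP F p)
    (hinj : Function.Injective p) : Sparse F := by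
  refine ⟨h.not_isDiag, fun Z hZ => ?_⟩
  have hsurj : Function.Surjective (rigZ F Z p) := by
    intro b
    classical
    obtain ⟨q, hq⟩ := h (fun e => if he : e ∈ F ∩ Z.sym2 then b ⟨e, he⟩ else 0)
    refine ⟨fun v => q v.1, ?_⟩
    funext e
    have h1 := rig_ext0 Z p q (mem_inter.1 e.2).2
    have h2 := hq e.1 (mem_inter.1 e.2).1
    have h3 : rigZ F Z p (fun v => q v.1) e = rig p (ext0 Z (fun v => q v.1)) e.1 := rfl
    rw [h3, h1, h2, dif_pos e.2]
  -- trivial motions
  let T : (Fin 3 → ℝ) →ₗ[ℝ] LinearMap.ker (rigZ F Z p) :=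
    { toFun := fun x => ⟨fun v => triv p x v.1, by
        rw [LinearMap.mem_ker]
        funext e
        have h1 := rig_ext0 Z p (triv p x) (mem_inter.1 e.2).2
        have h3 : rigZ F Z p (fun v => triv p x v.1) e =
          rig p (ext0 Z (fun v => triv p x v.1)) e.1 := rfl
        rw [h3, h1, rig_triv]
        rfl⟩
      map_add' := fun x y => by
        apply Subtype.ext
        funext v i
        fin_cases i
        · simp [triv]; ring
        · simp [triv]; ring
      map_smul' := fun c x => by
        apply Subtype.ext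
        funext v i
        fin_cases i
        · simp [triv]; ring
        · simp [triv]; ring }
  have hT : Function.Injective T := by
    rw [← LinearMap.ker_eq_bot, LinearMap.ker_eq_bot']
    intro x hx
    obtain ⟨a, ha, b, hb, hab⟩ := Finset.one_lt_card.1 (show 1 < Z.card by omega)
    have h1 : ∀ v ∈ Z, triv p x v = 0 := by
      intro v hv
      have := congrArg Subtype.val hx
      exact congrFun this ⟨v, hv⟩
    have ha0 := congrFun (h1 a ha) 0
    have ha1 := congrFun (h1 a ha) 1
    have hb0 := congrFun (h1 b hb) 0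
    have hb1 := congrFun (h1 b hb) 1
    simp only [triv, Matrix.cons_val_zero, Matrix.cons_val_one, Pi.zero_apply] at ha0 ha1 hb0 hb1
    have h2 : x 2 = 0 := by
      by_contra h2
      apply hab
      apply hinj
      funext i
      have e0 : x 2 * (p a 0 - p b 0) = 0 := by linarith
      have e1 : x 2 * (p a 1 - p b 1) = 0 := by linarith
      have f0 := (mul_eq_zero.1 e0).resolve_left h2
      have f1 := (mul_eq_zero.1 e1).resolve_left h2
      fin_cases i
      · simpa using sub_eq_zero.1 f0
      · simpa using sub_eq_zero.1 f1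
    rw [h2] at ha0 ha1
    funext i
    fin_cases i
    · simpa using ha0
    · simpa using ha1
    · exact h2
  have h1 := LinearMap.finrank_range_add_finrank_ker (rigZ F Z p)
  have h2 := LinearMap.finrank_le_finrank_of_injective hT
  rw [LinearMap.range_eq_top.2 hsurj, finrank_top, Module.finrank_fintype_fun_eq_card] at h1
  have h3 : Module.finrank ℝ (Z → Fin 2 → ℝ) = 2 * Z.card := by
    rw [Module.finrank_pi_fintype]
    simp [mul_comm]
  rw [h3] at h1
  have h4 : Module.finrank ℝ (Fin 3 → ℝ) = 3 := by simp
  rw [h4] at h2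
  have h5 : Fintype.card (F ∩ Z.sym2 : Finset (Sym2 V)) = ind F Z := by
    rw [Fintype.card_coe]
    rfl
  rw [h5] at h1
  omega

theorem GenP.injective {p : Conf V} (hp : GenP p) : Function.Injective p := by
  intro a b hab
  by_contra hne
  exact hp.ne hne (by rw [hab]; simp)

/-- **Laman's theorem** (infinitesimal form). -/
theorem ind_iff_sparse {p : Conf V} (hp : GenP p) (F : Finset (Sym2 V)) :
    IndP F p ↔ Sparse F :=
  ⟨fun h => sparse_of_ind h hp.injective, ind_of_sparse hp⟩

end

end Pool.Agent.H.MP_d01483_lc
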