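import Pool.Agent.H.MP_d01483_lc.Laman.Rigid

/-!
Continuous rigidity from an independent edge set of size `2n-3`.
-/

set_option linter.unusedSectionVars false
set_option linter.unusedVariables false

namespace Pool.Agent.H.MP_d01483_lc

open Finset ComplexConjugate

section
variable {V : Type} [DecidableEq V] [Fintype V]

/-- centered complex coordinates -/
noncomputable def zc (p : Conf V) (v : V) : ℂ := cz (ctr p v)

theorem zc_sub (p : Conf V) (u v : V) : zc p u - zc p v = cz (p u - p v) := by
  unfold zc
  rw [← cz_sub]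
  congr 1
  unfold ctr
  abel

theorem sum_zc [Nonempty V] (p : Conf V) : ∑ v, zc p v = 0 := by
  apply Complex.ext
  · rw [Complex.re_sum]
    exact sum_ctr p 0
  · rw [Complex.im_sum]
    exact sum_ctr p 1

/-- correlation with the reference configuration -/
noncomputable def corC (p q : Conf V) : ℂ := ∑ v, zc q v * conj (zc p v)

theorem corC_self (p : Conf V) : corC p p = (inertia p : ℂ) := by
  unfold corC inertia
  rw [Complex.ofReal_sum]
  apply Finset.sum_congr rfl
  intro v _
  rw [Complex.mul_conj]
  have := normSq_cz (ctr p v)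
  unfold zc
  rw [this]

theorem continuous_zc (v : V) : Continuous (fun q : Conf V => zc q v) := by
  have h : (fun q : Conf V => zc q v) = fun q => ((ctr q v 0 : ℝ) : ℂ) +
      ((ctr q v 1 : ℝ) : ℂ) * Complex.I := by
    funext q
    apply Complex.ext <;> simp [zc, cz]
  rw [h]
  unfold ctr cen
  simp only [Pi.sub_apply]
  fun_prop

theorem continuous_corC (p : Conf V) : Continuous (fun q : Conf V => corC p q) := by
  unfold corC
  apply continuous_finsetSum
  intro v _
  exact (continuous_zc v).mul continuous_const

/-- the aligned difference -/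
noncomputable def algn (p q : Conf V) (v : V) : ℂ :=
  (conj (corC p q) / (‖corC p q‖ : ℂ)) * zc q v - zc p v

/-- the aligned difference as a configuration -/
noncomputable def algnR (p q : Conf V) : Conf V := fun v => ![(algn p q v).re, (algn p q v).im]

theorem algn_props [Nonempty V] {p q : Conf V} (hS : corC p q ≠ 0) {F : Finset (Sym2 V)}
    (hF : ∀ e ∈ F, lsq q e = lsq p e) :
    (∑ v, algnR p q v 0 = 0) ∧ (∑ v, algnR p q v 1 = 0) ∧
      (∑ v, crs (ctr p v) (algnR p q v) = 0) ∧
      ∀ e ∈ F, lsq (p + algnR p q) e = lsq p e := by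
  set u : ℂ := conj (corC p q) / (‖corC p q‖ : ℂ) with hu
  have hn : (‖corC p q‖ : ℂ) ≠ 0 := by
    simpa using hS
  have hsum : ∑ v, algn p q v = 0 := by
    simp only [algn, Finset.sum_sub_distrib, ← Finset.mul_sum, sum_zc]
    simp
  have huS : u * corC p q = (‖corC p q‖ : ℂ) := by
    rw [hu, div_mul_eq_mul_div, mul_comm, Complex.mul_conj, Complex.normSq_eq_norm_sq]
    push_cast
    field_simp
  have hunorm : ‖u‖ = 1 := by
    rw [hu, norm_div, RCLike.norm_conj]
    simp only [Complex.norm_real, norm_norm]
    exact div_self (by simpa using hS)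
  refine ⟨?_, ?_, ?_, ?_⟩
  · have := congrArg Complex.re hsum
    rw [Complex.re_sum] at this
    exact this
  · have := congrArg Complex.im hsum
    rw [Complex.im_sum] at this
    exact this
  · have h1 : ∑ v, algn p q v * conj (zc p v) = (‖corC p q‖ : ℂ) - (inertia p : ℂ) := by
      have h2 : ∀ v, algn p q v * conj (zc p v) = u * (zc q v * conj (zc p v)) -
          zc p v * conj (zc p v) := by
        intro v; unfold algn; ring
      simp only [h2, Finset.sum_sub_distrib, ← Finset.mul_sum]
      have h3 : ∑ v, zc q v * conj (zc p v) = corC p q := rfl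
      have h4 : ∑ v, zc p v * conj (zc p v) = corC p p := rfl
      rw [h3, h4, huS, corC_self]
    have h2 := congrArg Complex.im h1
    rw [Complex.im_sum] at h2
    simp only [Complex.sub_im, Complex.ofReal_im, sub_zero] at h2
    rw [← h2]
    apply Finset.sum_congr rfl
    intro v _
    simp only [crs, algnR, Complex.mul_im, Complex.conj_re, Complex.conj_im, zc, cz,
      Matrix.cons_val_zero, Matrix.cons_val_one]
    ring
  · intro e he
    have h1 := hF e he
    induction e using Sym2.ind with
    | h a b =>
      rw [lsq_mk, lsq_mk] at h1 ⊢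
      have h2 : ∀ w, cz ((p + algnR p q) w) = cz (p w) + algn p q w := by
        intro w
        apply Complex.ext
        · simp [cz, algnR]
        · simp [cz, algnR]
      have h3 : dsq ((p + algnR p q) a) ((p + algnR p q) b) =
          Complex.normSq (u * (zc q a - zc q b)) := by
        unfold dsq
        rw [← normSq_cz, cz_sub, h2, h2]
        congr 1
        have h4 := zc_sub p a b
        rw [cz_sub] at h4
        unfold algn
        rw [← hu]
        linear_combination -h4
      rw [h3, Complex.normSq_mul, Complex.normSq_eq_norm_sq u, hunorm, zc_sub, normSq_cz]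
      rw [one_pow, one_mul]
      exact h1

theorem rigid_of_ind {p : Conf V} (hinj : Function.Injective p) (hn : 2 ≤ Fintype.card V)
    {F : Finset (Sym2 V)} (h : IndP F p) (hc : F.card + 3 = 2 * Fintype.card V)
    (γ : ℝ → Conf V) (hγ : Continuous γ) (hγ0 : γ 0 = p)
    (hF : ∀ t, ∀ e ∈ F, lsq (γ t) e = lsq p e) :
    ∀ t ∈ Set.Icc (0 : ℝ) 1, ∀ a b, dsq (γ t a) (γ t b) = dsq (p a) (p b) := by
  have hne : Nonempty V := Fintype.card_pos_iff.1 (by omega)
  have hI := inertia_pos hinj hn
  set σ := inertia p with hσ
  obtain ⟨r, hr, hsmall⟩ := small_zero h hI.ne' hc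
  let s : Set ℝ := {t | ∀ v, conj (corC p (γ t)) * zc (γ t) v = (σ : ℂ) * zc p v}
  have hcS : Continuous (fun t => corC p (γ t)) := (continuous_corC p).comp hγ
  have hcz : ∀ v, Continuous (fun t => zc (γ t) v) := fun v => (continuous_zc v).comp hγ
  have hclosed : IsClosed s := by
    have : s = ⋂ v, {t | conj (corC p (γ t)) * zc (γ t) v = (σ : ℂ) * zc p v} := by
      ext t; simp [s]
    rw [this]
    apply isClosed_iInter
    intro v
    exact isClosed_eq ((Complex.continuous_conj.comp hcS).mul (hcz v)) continuous_const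
  have h0 : (0 : ℝ) ∈ s := by
    intro v
    rw [hγ0, corC_self, Complex.conj_ofReal]
  have hnorm : ∀ t ∈ s, ‖corC p (γ t)‖ = σ := by
    intro t ht
    have h1 : conj (corC p (γ t)) * corC p (γ t) = (σ : ℂ) * (σ : ℂ) := by
      have h2 : conj (corC p (γ t)) * corC p (γ t) =
          ∑ v, (conj (corC p (γ t)) * zc (γ t) v) * conj (zc p v) := by
        conv_lhs => rw [corC.eq_1 p (γ t)]
        rw [Finset.mul_sum]
        apply Finset.sum_congr rfl
        intro v _
        unfold corC
        ring
      rw [h2]
      have h3 : ∀ v, (conj (corC p (γ t)) * zc (γ t) v) * conj (zc p v) =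
          (σ : ℂ) * (zc p v * conj (zc p v)) := by
        intro v; rw [ht v]; ring
      simp only [h3, ← Finset.mul_sum]
      have h4 : ∑ v, zc p v * conj (zc p v) = corC p p := rfl
      rw [h4, corC_self]
    rw [mul_comm, Complex.mul_conj, Complex.normSq_eq_norm_sq] at h1
    have h2 : ‖corC p (γ t)‖ ^ 2 = σ * σ := by exact_mod_cast h1
    have h3 : ‖corC p (γ t)‖ ^ 2 = σ ^ 2 := by rw [h2]; ring
    exact (pow_left_inj₀ (norm_nonneg _) hI.le two_ne_zero).1 h3
  have hopen : ∀ x ∈ s ∩ Set.Ico (0 : ℝ) 1, s ∈ nhdsWithin x (Set.Ioi x) := by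
    rintro x ⟨hx, _⟩
    apply mem_nhdsWithin_of_mem_nhds
    have hSx : corC p (γ x) ≠ 0 := by
      intro h0
      have := hnorm x hx
      rw [h0, norm_zero] at this
      linarith
    have hSnx : (‖corC p (γ x)‖ : ℂ) ≠ 0 := by simpa using hSx
    have hev1 : ∀ᶠ t in nhds x, corC p (γ t) ≠ 0 := hcS.continuousAt.eventually_ne hSx
    have hal : ∀ v, ContinuousAt (fun t => algn p (γ t) v) x := by
      intro v
      unfold algn
      apply ContinuousAt.sub _ continuousAt_const
      apply ContinuousAt.mul _ (hcz v).continuousAt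
      exact ContinuousAt.div (f := fun t => conj (corC p (γ t)))
        (g := fun t => ((‖corC p (γ t)‖ : ℝ) : ℂ))
        (Complex.continuous_conj.comp hcS).continuousAt
        (Complex.continuous_ofReal.comp hcS.norm).continuousAt hSnx
    have halR : ContinuousAt (fun t => algnR p (γ t)) x := by
      rw [continuousAt_pi]
      intro v
      rw [continuousAt_pi]
      intro i
      fin_cases i
      · exact Complex.continuous_re.continuousAt.comp (hal v)
      · exact Complex.continuous_im.continuousAt.comp (hal v)
    have hx0 : algnR p (γ x) = 0 := by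
      funext v
      have h1 : algn p (γ x) v = 0 := by
        unfold algn
        have h2 := hx v
        have h3 := hnorm x hx
        rw [h3]
        have h4 : (σ : ℂ) ≠ 0 := by exact_mod_cast hI.ne'
        rw [div_mul_eq_mul_div, h2, mul_div_cancel_left₀ _ h4, sub_self]
      funext i
      fin_cases i
      · simp [algnR, h1]
      · simp [algnR, h1]
    have hev2 : ∀ᶠ t in nhds x, ‖algnR p (γ t)‖ < r := by
      have h1 : ContinuousAt (fun t => ‖algnR p (γ t)‖) x := halR.norm
      have h2 : ‖algnR p (γ x)‖ < r := by rw [hx0, norm_zero]; exact hr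
      exact h1.eventually_lt continuousAt_const h2
    filter_upwards [hev1, hev2] with t ht1 ht2
    obtain ⟨p0, p1, p2, p3⟩ := algn_props ht1 (hF t)
    have h1 := hsmall _ p0 p1 p2 p3 ht2
    have h2 : ∀ v, algn p (γ t) v = 0 := by
      intro v
      apply Complex.ext
      · exact congrFun (congrFun h1 v) 0
      · exact congrFun (congrFun h1 v) 1
    have hSn : (‖corC p (γ t)‖ : ℂ) ≠ 0 := by simpa using ht1
    have h3 : ∀ v, conj (corC p (γ t)) * zc (γ t) v = (‖corC p (γ t)‖ : ℂ) * zc p v := by
      intro v
      have h4 := h2 v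
      unfold algn at h4
      rw [div_mul_eq_mul_div, sub_eq_zero, div_eq_iff hSn] at h4
      rw [h4]; ring
    have h4 : ‖corC p (γ t)‖ = σ := by
      have h5 : conj (corC p (γ t)) * corC p (γ t) = (‖corC p (γ t)‖ : ℂ) * (σ : ℂ) := by
        have h6 : conj (corC p (γ t)) * corC p (γ t) =
            ∑ v, (conj (corC p (γ t)) * zc (γ t) v) * conj (zc p v) := by
          conv_lhs => rw [corC.eq_1 p (γ t)]
          rw [Finset.mul_sum]
          apply Finset.sum_congr rfl
          intro v _
          unfold corC
          ring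
        rw [h6]
        have h7 : ∀ v, (conj (corC p (γ t)) * zc (γ t) v) * conj (zc p v) =
            (‖corC p (γ t)‖ : ℂ) * (zc p v * conj (zc p v)) := by
          intro v; rw [h3 v]; ring
        simp only [h7, ← Finset.mul_sum]
        have h8 : ∑ v, zc p v * conj (zc p v) = corC p p := rfl
        rw [h8, corC_self]
      rw [mul_comm, Complex.mul_conj, Complex.normSq_eq_norm_sq] at h5
      have h6 : ‖corC p (γ t)‖ ^ 2 = ‖corC p (γ t)‖ * σ := by exact_mod_cast h5
      have h7 : ‖corC p (γ t)‖ ≠ 0 := by simpa using ht1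
      have h8 : ‖corC p (γ t)‖ * ‖corC p (γ t)‖ = ‖corC p (γ t)‖ * σ := by
        rw [← h6]; ring
      exact mul_left_cancel₀ h7 h8
    intro v
    rw [h3 v, h4]
  have hsub := (hclosed.inter isClosed_Icc).Icc_subset_of_forall_mem_nhdsWithin h0 hopen
  intro t ht a b
  have hts := hsub ht
  have h1 := hnorm t hts
  have h2 : conj (corC p (γ t)) * (zc (γ t) a - zc (γ t) b) = (σ : ℂ) * (zc p a - zc p b) := by
    rw [mul_sub, mul_sub, hts a, hts b]
  have h3 := congrArg Complex.normSq h2
  rw [Complex.normSq_mul, Complex.normSq_mul, Complex.normSq_conj,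
    Complex.normSq_eq_norm_sq (corC p (γ t)), h1, Complex.normSq_ofReal, zc_sub, zc_sub,
    normSq_cz, normSq_cz] at h3
  have h4 : σ ^ 2 ≠ 0 := by positivity
  have h5 : σ ^ 2 * dot (γ t a - γ t b) (γ t a - γ t b) =
      σ ^ 2 * dot (p a - p b) (p a - p b) := by rw [h3]; ring
  exact mul_left_cancel₀ h4 h5

end

end Pool.Agent.H.MP_d01483_lc
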