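import Pool.Agent.H.MP_d01483_lc.Sparse

/-!
Infinitesimal rigidity in the plane: rigidity rows, independence, genericity.
-/

set_option linter.unusedSectionVars false
set_option linter.unusedVariables false

namespace Pool.Agent.H.MP_d01483_lc

open Finset

section
variable {V : Type} [DecidableEq V] [Fintype V]

/-- configurations in the plane -/
abbrev Conf (V : Type) := V → Fin 2 → ℝ

/-- dot product -/
def dot (x y : Fin 2 → ℝ) : ℝ := x 0 * y 0 + x 1 * y 1

/-- cross product -/
def crs (x y : Fin 2 → ℝ) : ℝ := x 0 * y 1 - x 1 * y 0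

/-- the rigidity functional of an edge -/
def rig (p q : Conf V) : Sym2 V → ℝ :=
  Sym2.lift ⟨fun u v => dot (p u - p v) (q u - q v), fun u v => by
    simp only [dot, Pi.sub_apply]; ring⟩

@[simp] theorem rig_mk (p q : Conf V) (u v : V) :
    rig p q s(u, v) = dot (p u - p v) (q u - q v) := rfl

/-- the rows of `F` are independent at `p` -/
def IndP (F : Finset (Sym2 V)) (p : Conf V) : Prop :=
  ∀ b : Sym2 V → ℝ, ∃ q : Conf V, ∀ e ∈ F, rig p q e = b e

theorem IndP.mono {F F' : Finset (Sym2 V)} {p : Conf V} (h : IndP F' p) (hF : F ⊆ F') :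
    IndP F p := fun b => by
  obtain ⟨q, hq⟩ := h b
  exact ⟨q, fun e he => hq e (hF he)⟩

theorem rig_add (p q q' : Conf V) (e : Sym2 V) :
    rig p (q + q') e = rig p q e + rig p q' e := by
  induction e using Sym2.ind with
  | h u v => simp only [rig_mk, dot, Pi.sub_apply, Pi.add_apply]; ring

theorem rig_smul (p : Conf V) (c : ℝ) (q : Conf V) (e : Sym2 V) :
    rig p (c • q) e = c * rig p q e := by
  induction e using Sym2.ind with
  | h u v => simp only [rig_mk, dot, Pi.sub_apply, Pi.smul_apply, smul_eq_mul]; ring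

theorem rig_sub (p q q' : Conf V) (e : Sym2 V) :
    rig p (q - q') e = rig p q e - rig p q' e := by
  induction e using Sym2.ind with
  | h u v => simp only [rig_mk, dot, Pi.sub_apply]; ring

theorem IndP.not_isDiag {F : Finset (Sym2 V)} {p : Conf V} (h : IndP F p) :
    ∀ e ∈ F, ¬ e.IsDiag := by
  intro e he hd
  obtain ⟨q, hq⟩ := h (fun _ => 1)
  have := hq e he
  induction e using Sym2.ind with
  | h u v =>
    rw [Sym2.mk_isDiag_iff] at hd
    subst hd
    simp [dot] at this

/-- solving a 2 x 2 system -/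
theorem solve2 {d m : Fin 2 → ℝ} (h : crs d m ≠ 0) (α β : ℝ) :
    ∃ x : Fin 2 → ℝ, dot d x = α ∧ dot m x = β := by
  refine ⟨![(α * m 1 - β * d 1) / crs d m, (β * d 0 - α * m 0) / crs d m], ?_, ?_⟩
  · simp only [dot, Matrix.cons_val_zero, Matrix.cons_val_one]
    rw [← mul_div_assoc, ← mul_div_assoc, ← add_div, div_eq_iff h]
    simp only [crs]; ring
  · simp only [dot, Matrix.cons_val_zero, Matrix.cons_val_one]
    rw [← mul_div_assoc, ← mul_div_assoc, ← add_div, div_eq_iff h]
    simp only [crs]; ring

theorem solve1 {d : Fin 2 → ℝ} (h : d ≠ 0) (α : ℝ) : ∃ x : Fin 2 → ℝ, dot d x = α := by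
  have hs : dot d d ≠ 0 := by
    intro h0
    apply h
    simp only [dot] at h0
    have h1 : d 0 = 0 := by nlinarith [sq_nonneg (d 0), sq_nonneg (d 1)]
    have h2 : d 1 = 0 := by nlinarith [sq_nonneg (d 0), sq_nonneg (d 1)]
    funext i
    fin_cases i
    · exact h1
    · exact h2
  refine ⟨(α / dot d d) • d, ?_⟩
  have : dot d ((α / dot d d) • d) = (α / dot d d) * dot d d := by
    simp only [dot, Pi.smul_apply, smul_eq_mul]; ring
  rw [this, div_mul_cancel₀ _ hs]

/-! ### Genericity -/

/-- coordinates algebraically independent over `ℚ` -/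
def GenP (p : Conf V) : Prop := AlgebraicIndependent ℚ (fun i : V × Fin 2 => p i.1 i.2)

/-- evaluation of a polynomial at a configuration -/
noncomputable def evC (p : Conf V) (P : MvPolynomial (V × Fin 2) ℚ) : ℝ :=
  MvPolynomial.aeval (fun i : V × Fin 2 => p i.1 i.2) P

theorem GenP.ne_zero {p : Conf V} (hp : GenP p) {P : MvPolynomial (V × Fin 2) ℚ}
    {p' : Conf V} (h : evC p' P ≠ 0) : evC p P ≠ 0 := by
  intro h0
  have h1 : P = 0 := by
    apply hp
    unfold evC at h0
    rw [h0, map_zero]
  apply h
  rw [h1]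
  simp [evC]

theorem GenP.ne {p : Conf V} (hp : GenP p) {a b : V} (hab : a ≠ b) : p a - p b ≠ 0 := by
  have h1 : evC (fun v i => if v = a then 1 else 0)
      (MvPolynomial.X (a, 0) - MvPolynomial.X (b, 0) : MvPolynomial (V × Fin 2) ℚ) ≠ 0 := by
    simp [evC, hab.symm]
  have h2 := hp.ne_zero h1
  intro h3
  apply h2
  have := congrFun h3 0
  simpa [evC] using this

theorem GenP.crs_ne {p : Conf V} (hp : GenP p) {a b c : V} (hab : a ≠ b) (hac : a ≠ c)
    (hbc : b ≠ c) : crs (p a - p b) (p a - p c) ≠ 0 := by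
  have h1 : evC (fun v i => if v = b ∧ i = 0 then 1 else if v = c ∧ i = 1 then 1 else 0)
      ((MvPolynomial.X (a, 0) - MvPolynomial.X (b, 0)) *
        (MvPolynomial.X (a, 1) - MvPolynomial.X (c, 1)) -
        (MvPolynomial.X (a, 1) - MvPolynomial.X (b, 1)) *
        (MvPolynomial.X (a, 0) - MvPolynomial.X (c, 0)) :
        MvPolynomial (V × Fin 2) ℚ) ≠ 0 := by
    simp [evC, hab, hac, hbc, hbc.symm]
  have h2 := hp.ne_zero h1
  intro h3
  apply h2
  simpa [evC, crs] using h3

/-- symbolic rigidity matrix -/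
noncomputable def symM (F : Finset (Sym2 V)) :
    Matrix F (V × Fin 2) (MvPolynomial (V × Fin 2) ℚ) :=
  fun e w => Sym2.lift ⟨fun u v => ((if w.1 = u then 1 else 0) - (if w.1 = v then 1 else 0)) *
    (MvPolynomial.X (u, w.2) - MvPolynomial.X (v, w.2)), fun u v => by ring⟩ e.1

/-- real rigidity matrix -/
noncomputable def realM (F : Finset (Sym2 V)) (p : Conf V) : Matrix F (V × Fin 2) ℝ :=
  fun e w => Sym2.lift ⟨fun u v => ((if w.1 = u then 1 else 0) - (if w.1 = v then 1 else 0)) *
    (p u w.2 - p v w.2), fun u v => by ring⟩ e.1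

theorem map_symM (F : Finset (Sym2 V)) (p : Conf V) :
    (symM F).map (MvPolynomial.aeval (fun i : V × Fin 2 => p i.1 i.2)) = realM F p := by
  ext ⟨e, he⟩ w
  induction e using Sym2.ind with
  | h u v =>
    simp only [Matrix.map_apply, symM, realM, Sym2.lift_mk, map_mul, map_sub,
      MvPolynomial.aeval_X]
    congr 1
    split_ifs <;> simp

theorem realM_mulVec (F : Finset (Sym2 V)) (p q : Conf V) (e : F) :
    (realM F p).mulVec (fun w => q w.1 w.2) e = rig p q e.1 := by
  obtain ⟨e, he⟩ := e
  induction e using Sym2.ind with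
  | h u v =>
    simp only [Matrix.mulVec, dotProduct, realM, Sym2.lift_mk, rig_mk, dot, Pi.sub_apply]
    rw [Fintype.sum_prod_type]
    have : ∀ w : V, ∑ i : Fin 2, ((if w = u then (1 : ℝ) else 0) - (if w = v then 1 else 0)) *
        (p u i - p v i) * q w i =
        (if w = u then ((p u 0 - p v 0) * q w 0 + (p u 1 - p v 1) * q w 1) else 0) -
        (if w = v then ((p u 0 - p v 0) * q w 0 + (p u 1 - p v 1) * q w 1) else 0) := by
      intro w
      rw [Fin.sum_univ_two]
      split_ifs <;> ring
    simp only [this, Finset.sum_sub_distrib, Finset.sum_ite_eq', Finset.mem_univ, if_true]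
    ring

theorem indP_iff_det (F : Finset (Sym2 V)) (p : Conf V) :
    IndP F p ↔ (realM F p * (realM F p).transpose).det ≠ 0 := by
  constructor
  · intro h hdet
    obtain ⟨x, hx, hx0⟩ := Matrix.exists_mulVec_eq_zero_iff.2 hdet
    have h1 : (realM F p).transpose.mulVec x = 0 := by
      have h2 : dotProduct ((realM F p).transpose.mulVec x)
          ((realM F p).transpose.mulVec x) = 0 := by
        rw [← Matrix.mulVec_mulVec] at hx0
        have h3 : dotProduct x ((realM F p).mulVec ((realM F p).transpose.mulVec x)) = 0 := by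
          rw [hx0]; simp
        rw [Matrix.dotProduct_mulVec] at h3
        rwa [Matrix.mulVec_transpose] at h3 ⊢
      exact dotProduct_self_eq_zero.1 h2
    apply hx
    classical
    obtain ⟨q, hq⟩ := h (fun e => if he : e ∈ F then x ⟨e, he⟩ else 0)
    have h4 : (realM F p).mulVec (fun w => q w.1 w.2) = x := by
      funext e
      rw [realM_mulVec, hq e.1 e.2]
      simp
    have h5 : dotProduct x x = 0 := by
      nth_rw 2 [← h4]
      rw [Matrix.dotProduct_mulVec, ← Matrix.mulVec_transpose, h1]
      simp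
    exact dotProduct_self_eq_zero.1 h5
  · intro h b
    have hu : IsUnit (realM F p * (realM F p).transpose).det := isUnit_iff_ne_zero.2 h
    set y := (realM F p).transpose.mulVec
      ((realM F p * (realM F p).transpose)⁻¹.mulVec (fun e => b e.1)) with hy
    refine ⟨fun v i => y (v, i), fun e he => ?_⟩
    have h1 := realM_mulVec F p (fun v i => y (v, i)) ⟨e, he⟩
    rw [← h1]
    have h2 : (fun w : V × Fin 2 => y (w.1, w.2)) = y := rfl
    rw [h2, hy, Matrix.mulVec_mulVec, Matrix.mulVec_mulVec, Matrix.mul_nonsing_inv _ hu,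
      Matrix.one_mulVec]

/-- independence at some point implies independence at generic points -/
theorem IndP.generic {F : Finset (Sym2 V)} {p p' : Conf V} (h : IndP F p') (hp : GenP p) :
    IndP F p := by
  rw [indP_iff_det] at h ⊢
  have key : ∀ q : Conf V, evC q ((symM F * (symM F).transpose).det) =
      (realM F q * (realM F q).transpose).det := by
    intro q
    unfold evC
    have h1 := (MvPolynomial.aeval (R := ℚ) (fun i : V × Fin 2 => q i.1 i.2)).toRingHom.map_det
      (symM F * (symM F).transpose)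
    have h2 : (MvPolynomial.aeval (R := ℚ) (fun i : V × Fin 2 => q i.1 i.2)).toRingHom.mapMatrix
        (symM F * (symM F).transpose) = realM F q * (realM F q).transpose := by
      have h3 := map_symM F q
      change (symM F * (symM F).transpose).map
        (MvPolynomial.aeval (R := ℚ) (fun i : V × Fin 2 => q i.1 i.2)) = _
      rw [Matrix.map_mul, Matrix.transpose_map, h3]
    rw [h2] at h1
    exact h1
  rw [← key] at h ⊢
  exact hp.ne_zero h

end

end Pool.Agent.H.MP_d01483_lc
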