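import Pool.Agent.H.MP_d01483_lc.Laman.Flex

/-!
An independent edge set of size `2n-3` makes a framework rigid.
-/

set_option linter.unusedSectionVars false
set_option linter.unusedVariables false

namespace Pool.Agent.H.MP_d01483_lc

open Finset ComplexConjugate

section
variable {V : Type} [DecidableEq V] [Fintype V]

/-- points as complex numbers -/
def cz (x : Fin 2 → ℝ) : ℂ := ⟨x 0, x 1⟩

theorem cz_sub (x y : Fin 2 → ℝ) : cz (x - y) = cz x - cz y := by
  apply Complex.ext <;> simp [cz]

theorem normSq_cz (x : Fin 2 → ℝ) : Complex.normSq (cz x) = dot x x := by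
  simp [Complex.normSq_apply, cz, dot]

/-- the centroid -/
noncomputable def cen (p : Conf V) : Fin 2 → ℝ := fun i => (∑ v, p v i) / Fintype.card V

/-- centered configuration -/
noncomputable def ctr (p : Conf V) : Conf V := fun v => p v - cen p

theorem sum_ctr [Nonempty V] (p : Conf V) (i : Fin 2) : ∑ v, ctr p v i = 0 := by
  have hn : (Fintype.card V : ℝ) ≠ 0 := by
    exact_mod_cast Fintype.card_ne_zero
  simp only [ctr, cen, Pi.sub_apply, Finset.sum_sub_distrib, Finset.sum_const,
    Finset.card_univ, nsmul_eq_mul]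
  field_simp
  ring

/-- the moment of inertia -/
noncomputable def inertia (p : Conf V) : ℝ := ∑ v, dot (ctr p v) (ctr p v)

theorem dot_self_nonneg (x : Fin 2 → ℝ) : 0 ≤ dot x x := by
  simp only [dot]; nlinarith [sq_nonneg (x 0), sq_nonneg (x 1)]

theorem dot_self_eq_zero {x : Fin 2 → ℝ} (h : dot x x = 0) : x = 0 := by
  simp only [dot] at h
  funext i
  fin_cases i
  · show x 0 = 0
    nlinarith [sq_nonneg (x 0), sq_nonneg (x 1)]
  · show x 1 = 0
    nlinarith [sq_nonneg (x 0), sq_nonneg (x 1)]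

theorem inertia_pos {p : Conf V} (hp : Function.Injective p) (hn : 2 ≤ Fintype.card V) :
    0 < inertia p := by
  have h0 : 0 ≤ inertia p := Finset.sum_nonneg fun v _ => dot_self_nonneg _
  rcases h0.lt_or_eq with h | h
  · exact h
  · exfalso
    obtain ⟨a, b, hab⟩ := Fintype.exists_pair_of_one_lt_card
      (show 1 < Fintype.card V by omega)
    have h1 : ∀ v, ctr p v = 0 := by
      intro v
      have h2 := (Finset.sum_eq_zero_iff_of_nonneg (fun v _ => dot_self_nonneg _)).1 h.symm v
        (mem_univ v)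
      exact dot_self_eq_zero h2
    apply hab
    apply hp
    have h2 := h1 a
    have h3 := h1 b
    unfold ctr at h2 h3
    rw [sub_eq_zero] at h2 h3
    rw [h2, h3]

/-- the augmented rigidity map -/
noncomputable def augL (F : Finset (Sym2 V)) (p : Conf V) :
    Conf V →ₗ[ℝ] (F → ℝ) × ℝ × ℝ × ℝ where
  toFun q := (fun e => rig p q e.1, ∑ v, q v 0, ∑ v, q v 1, ∑ v, crs (ctr p v) (q v))
  map_add' q q' := by
    ext
    · exact rig_add _ _ _ _
    · simp [Finset.sum_add_distrib]
    · simp [Finset.sum_add_distrib]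
    · simp only [Prod.snd_add]
      rw [← Finset.sum_add_distrib]
      apply Finset.sum_congr rfl
      intro v _
      simp only [crs, Pi.add_apply]; ring
  map_smul' c q := by
    ext
    · exact rig_smul _ _ _ _
    · simp [Finset.mul_sum]
    · simp [Finset.mul_sum]
    · simp only [Prod.smul_snd, smul_eq_mul, RingHom.id_apply]
      rw [Finset.mul_sum]
      apply Finset.sum_congr rfl
      intro v _
      simp only [crs, Pi.smul_apply, smul_eq_mul]; ring

/-- centered trivial motions -/
noncomputable def ctriv (p : Conf V) (x y z : ℝ) : Conf V :=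
  fun v => ![x - z * ctr p v 1, y + z * ctr p v 0]

theorem ctriv_zero (p : Conf V) (x y z : ℝ) (v : V) :
    ctriv p x y z v 0 = x - z * ctr p v 1 := rfl

theorem ctriv_one (p : Conf V) (x y z : ℝ) (v : V) :
    ctriv p x y z v 1 = y + z * ctr p v 0 := rfl

theorem rig_ctriv (p : Conf V) (x y z : ℝ) (e : Sym2 V) : rig p (ctriv p x y z) e = 0 := by
  induction e using Sym2.ind with
  | h u v =>
    simp only [rig_mk, dot, ctriv, ctr, Pi.sub_apply, Matrix.cons_val_zero,
      Matrix.cons_val_one]
    ring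

theorem augL_surjective [Nonempty V] {F : Finset (Sym2 V)} {p : Conf V} (h : IndP F p)
    (hI : inertia p ≠ 0) : Function.Surjective (augL F p) := by
  classical
  have hn : (Fintype.card V : ℝ) ≠ 0 := by
    exact_mod_cast Fintype.card_ne_zero
  rintro ⟨b, s0, s1, s2⟩
  obtain ⟨q, hq⟩ := h (fun e => if he : e ∈ F then b ⟨e, he⟩ else 0)
  refine ⟨q + ctriv p ((s0 - ∑ v, q v 0) / Fintype.card V)
    ((s1 - ∑ v, q v 1) / Fintype.card V)
    ((s2 - ∑ v, crs (ctr p v) (q v)) / inertia p), ?_⟩
  have c0 := sum_ctr p 0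
  have c1 := sum_ctr p 1
  ext
  · rename_i e
    show rig p _ e.1 = b e
    rw [rig_add, rig_ctriv, add_zero, hq e.1 e.2]
    simp
  · show ∑ v, (q + ctriv p _ _ _) v 0 = s0
    simp only [Pi.add_apply, ctriv_zero, Finset.sum_add_distrib,
      Finset.sum_sub_distrib, Finset.sum_const, Finset.card_univ, nsmul_eq_mul,
      ← Finset.mul_sum, c1]
    field_simp
    ring
  · show ∑ v, (q + ctriv p _ _ _) v 1 = s1
    simp only [Pi.add_apply, ctriv_one, Finset.sum_add_distrib,
      Finset.sum_const, Finset.card_univ, nsmul_eq_mul,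
      ← Finset.mul_sum, c0]
    field_simp
    ring
  · show ∑ v, crs (ctr p v) ((q + ctriv p _ _ _) v) = s2
    set x := (s0 - ∑ v, q v 0) / (Fintype.card V : ℝ)
    set y := (s1 - ∑ v, q v 1) / (Fintype.card V : ℝ)
    set z := (s2 - ∑ v, crs (ctr p v) (q v)) / inertia p with hz
    have e1 : ∀ v, crs (ctr p v) ((q + ctriv p x y z) v) = crs (ctr p v) (q v) +
        (ctr p v 0 * y - ctr p v 1 * x) + z * dot (ctr p v) (ctr p v) := by
      intro v
      simp only [crs, dot, Pi.add_apply, ctriv_zero, ctriv_one]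
      ring
    simp only [e1, Finset.sum_add_distrib, Finset.sum_sub_distrib, ← Finset.mul_sum,
      ← Finset.sum_mul, c0, c1]
    have e2 : ∑ v, dot (ctr p v) (ctr p v) = inertia p := rfl
    rw [e2, hz, div_mul_cancel₀ _ hI]
    ring

theorem exists_bound [Nonempty V] {F : Finset (Sym2 V)} {p : Conf V} (h : IndP F p)
    (hI : inertia p ≠ 0) (hc : F.card + 3 = 2 * Fintype.card V) :
    ∃ K : ℝ, 0 < K ∧ ∀ q : Conf V, ‖q‖ ≤ K * ‖augL F p q‖ := by
  have hfin : Module.finrank ℝ (Conf V) = Module.finrank ℝ ((F → ℝ) × ℝ × ℝ × ℝ) := by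
    rw [finrank_conf, Module.finrank_prod, Module.finrank_prod, Module.finrank_prod,
      Module.finrank_fintype_fun_eq_card, Fintype.card_coe]
    simp only [Module.finrank_self]
    omega
  have hinj : Function.Injective (augL F p) :=
    (LinearMap.injective_iff_surjective_of_finrank_eq_finrank hfin).2 (augL_surjective h hI)
  obtain ⟨K, hK, hanti⟩ := LinearMap.exists_antilipschitzWith (augL F p)
    (LinearMap.ker_eq_bot.2 hinj)
  refine ⟨K, by exact_mod_cast hK, fun q => ?_⟩
  have := hanti.le_mul_dist q 0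
  rwa [map_zero, dist_zero_right, dist_zero_right] at this

/-- an aligned small perturbation preserving the lengths of `F` is zero -/
theorem small_zero [Nonempty V] {F : Finset (Sym2 V)} {p : Conf V} (h : IndP F p)
    (hI : inertia p ≠ 0) (hc : F.card + 3 = 2 * Fintype.card V) :
    ∃ r : ℝ, 0 < r ∧ ∀ q : Conf V, (∑ v, q v 0 = 0) → (∑ v, q v 1 = 0) →
      (∑ v, crs (ctr p v) (q v) = 0) → (∀ e ∈ F, lsq (p + q) e = lsq p e) → ‖q‖ < r →
      q = 0 := by
  obtain ⟨K, hK, hbound⟩ := exists_bound h hI hc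
  refine ⟨1 / (4 * K), by positivity, fun q h0 h1 h2 hF hr => ?_⟩
  have hrig : ∀ e ∈ F, |rig p q e| ≤ 4 * ‖q‖ ^ 2 := by
    intro e he
    have h3 := hF e he
    induction e using Sym2.ind with
    | h u v =>
      simp only [lsq_mk, rig_mk, dsq, dot, Pi.sub_apply, Pi.add_apply] at h3 ⊢
      have hb : ∀ w i, |q w i| ≤ ‖q‖ := by
        intro w i
        have g1 := norm_le_pi_norm (q w) i
        have g2 := norm_le_pi_norm q w
        rw [Real.norm_eq_abs] at g1
        exact g1.trans g2
      have a0 := abs_le.1 (hb u 0)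
      have a1 := abs_le.1 (hb u 1)
      have a2 := abs_le.1 (hb v 0)
      have a3 := abs_le.1 (hb v 1)
      have e1 : (p u 0 - p v 0) * (q u 0 - q v 0) + (p u 1 - p v 1) * (q u 1 - q v 1) =
          -(((q u 0 - q v 0) ^ 2 + (q u 1 - q v 1) ^ 2) / 2) := by
        linear_combination (1 / 2) * h3
      rw [e1, abs_neg, abs_of_nonneg (by positivity)]
      have e2 : (q u 0 - q v 0) ^ 2 ≤ 4 * ‖q‖ ^ 2 := by
        have : |q u 0 - q v 0| ≤ 2 * ‖q‖ := by rw [abs_le]; constructor <;> linarith
        nlinarith [abs_nonneg (q u 0 - q v 0), sq_abs (q u 0 - q v 0)]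
      have e3 : (q u 1 - q v 1) ^ 2 ≤ 4 * ‖q‖ ^ 2 := by
        have : |q u 1 - q v 1| ≤ 2 * ‖q‖ := by rw [abs_le]; constructor <;> linarith
        nlinarith [abs_nonneg (q u 1 - q v 1), sq_abs (q u 1 - q v 1)]
      linarith
  have hnorm : ‖augL F p q‖ ≤ 4 * ‖q‖ ^ 2 := by
    have e1 : augL F p q = (fun e => rig p q e.1, 0, 0, 0) := by
      show (_, _, _, _) = _
      rw [h0, h1, h2]
    rw [e1, Prod.norm_def]
    apply max_le
    · rw [pi_norm_le_iff_of_nonneg (by positivity)]
      intro e
      rw [Real.norm_eq_abs]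
      exact hrig e.1 e.2
    · simp only [Prod.norm_def, norm_zero, max_self]
      positivity
  have h3 := hbound q
  by_contra hne
  have hpos : 0 < ‖q‖ := norm_pos_iff.2 hne
  have h4 : ‖q‖ ≤ K * (4 * ‖q‖ ^ 2) := h3.trans (mul_le_mul_of_nonneg_left hnorm hK.le)
  rw [lt_div_iff₀ (by positivity)] at hr
  nlinarith

end

end Pool.Agent.H.MP_d01483_lc
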